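import Pool.Agent.H86.CMLib.Y102.SP.Defs

set_option autoImplicit false

open Module

namespace Pool.Agent.Y102.SP

variable {U : Type} [AddCommGroup U] [Module ℂ U] [FiniteDimensional ℂ U] [Nontrivial U]

omit [FiniteDimensional ℂ U] [Nontrivial U] in
theorem Cl_bil_add (v v' w : Module.End ℂ U) :
    Pool.Agent.Y102.SP.bil (v + v') w =
      Pool.Agent.Y102.SP.bil v w + Pool.Agent.Y102.SP.bil v' w := by
  unfold Pool.Agent.Y102.SP.bil
  rw [← add_div, ← map_add]
  congr 2
  rw [add_mul, mul_add]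
  abel

omit [FiniteDimensional ℂ U] [Nontrivial U] in
theorem Cl_bil_smul (c : ℂ) (v w : Module.End ℂ U) :
    Pool.Agent.Y102.SP.bil (c • v) w = c * Pool.Agent.Y102.SP.bil v w := by
  unfold Pool.Agent.Y102.SP.bil
  rw [smul_mul_assoc, mul_smul_comm, ← smul_add, map_smul, smul_eq_mul, mul_div_assoc]

omit [FiniteDimensional ℂ U] [Nontrivial U] in
theorem Cl_bil_symm (v w : Module.End ℂ U) :
    Pool.Agent.Y102.SP.bil v w = Pool.Agent.Y102.SP.bil w v := by
  unfold Pool.Agent.Y102.SP.bil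
  rw [add_comm]

omit [FiniteDimensional ℂ U] [Nontrivial U] in
theorem Cl_bil_zero (w : Module.End ℂ U) : Pool.Agent.Y102.SP.bil 0 w = 0 := by
  unfold Pool.Agent.Y102.SP.bil
  simp

theorem CE.bil {n : ℕ} {E : Fin n → Module.End ℂ U} (hE : CE E) (i j : Fin n) :
    bil (E i) (E j) = if i = j then 2 else 0 := by
  have hf : (finrank ℂ U : ℂ) ≠ 0 := by
    exact_mod_cast (finrank_pos (R := ℂ) (M := U)).ne'
  unfold Pool.Agent.Y102.SP.bil
  split_ifs with h
  · subst h
    rw [hE.sq i, map_add, LinearMap.trace_one]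
    field_simp
    ring
  · rw [hE.anti i j h, neg_add_cancel, map_zero, zero_div]

theorem Cl_anti1 {n : ℕ} {E : Fin n → Module.End ℂ U} (hE : CE E) (i j : Fin n) :
    E i * E j + E j * E i = Pool.Agent.Y102.SP.bil (E i) (E j) • (1 : Module.End ℂ U) := by
  rw [hE.bil]
  split_ifs with h
  · subst h
    rw [hE.sq i, two_smul]
  · rw [hE.anti i j h, neg_add_cancel, zero_smul]

theorem Cl_anti2 {n : ℕ} {E : Fin n → Module.End ℂ U} (hE : CE E) (j : Fin n)
    {v : Module.End ℂ U} (hv : v ∈ VE E) :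
    v * E j + E j * v = Pool.Agent.Y102.SP.bil v (E j) • (1 : Module.End ℂ U) := by
  refine Submodule.span_induction (p := fun v _ => v * E j + E j * v =
    Pool.Agent.Y102.SP.bil v (E j) • (1 : Module.End ℂ U)) ?_ ?_ ?_ ?_ hv
  · rintro _ ⟨i, rfl⟩
    exact Cl_anti1 hE i j
  · rw [Cl_bil_zero, zero_mul, mul_zero, add_zero, zero_smul]
  · intro x y _ _ hx hy
    rw [Cl_bil_add, add_smul, ← hx, ← hy, add_mul, mul_add]
    abel
  · intro c x _ hx
    rw [Cl_bil_smul, mul_smul, ← hx, smul_mul_assoc, mul_smul_comm, smul_add]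

theorem Cl_anti3 {n : ℕ} {E : Fin n → Module.End ℂ U} (hE : CE E)
    {v w : Module.End ℂ U} (hv : v ∈ VE E) (hw : w ∈ VE E) :
    v * w + w * v = Pool.Agent.Y102.SP.bil v w • (1 : Module.End ℂ U) := by
  rw [Cl_bil_symm, add_comm]
  refine Submodule.span_induction (p := fun w _ => w * v + v * w =
    Pool.Agent.Y102.SP.bil w v • (1 : Module.End ℂ U)) ?_ ?_ ?_ ?_ hw
  · rintro _ ⟨i, rfl⟩
    rw [Cl_bil_symm, add_comm]
    exact Cl_anti2 hE i hv
  · rw [Cl_bil_zero, zero_mul, mul_zero, add_zero, zero_smul]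
  · intro x y _ _ hx hy
    rw [Cl_bil_add, add_smul, ← hx, ← hy, add_mul, mul_add]
    abel
  · intro c x _ hx
    rw [Cl_bil_smul, mul_smul, ← hx, smul_mul_assoc, mul_smul_comm, smul_add]

theorem Cl_bil_sum {n : ℕ} {E : Fin n → Module.End ℂ U} (hE : CE E) (c : Fin n → ℂ) (j : Fin n) :
    Pool.Agent.Y102.SP.bil (∑ i, c i • E i) (E j) = 2 * c j := by
  have h : ∀ s : Finset (Fin n), Pool.Agent.Y102.SP.bil (∑ i ∈ s, c i • E i) (E j) =
      ∑ i ∈ s, c i * Pool.Agent.Y102.SP.bil (E i) (E j) := by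
    intro s
    classical
    induction s using Finset.induction_on with
    | empty => simp [Cl_bil_zero]
    | insert a s ha ih => rw [Finset.sum_insert ha, Finset.sum_insert ha, Cl_bil_add, Cl_bil_smul, ih]
  rw [h]
  simp only [hE.bil, mul_ite, mul_zero, Finset.sum_ite_eq', Finset.mem_univ, if_true]
  ring

theorem Cl_indep {n : ℕ} {E : Fin n → Module.End ℂ U} (hE : CE E) : LinearIndependent ℂ E := by
  rw [Fintype.linearIndependent_iff]
  intro g hg j
  have := Cl_bil_sum hE g j
  rw [hg, Cl_bil_zero] at this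
  have h2 : (2 : ℂ) ≠ 0 := two_ne_zero
  exact (mul_eq_zero.1 this.symm).resolve_left h2

/-- The span of a Clifford system. -/
theorem CE.clif {n : ℕ} {E : Fin n → Module.End ℂ U} (hE : CE E) : Clif (VE E) := by
  refine ⟨fun v hv w hw => Cl_anti3 hE hv hw, fun v hv h => ?_⟩
  obtain ⟨c, rfl⟩ := (Submodule.mem_span_range_iff_exists_fun ℂ).1 hv
  refine Finset.sum_eq_zero fun j _ => ?_
  have h1 := h (E j) (Submodule.subset_span ⟨j, rfl⟩)
  rw [Cl_bil_sum hE] at h1
  have h2 : (2 : ℂ) ≠ 0 := two_ne_zero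
  rw [(mul_eq_zero.1 h1).resolve_left h2, zero_smul]

theorem CE.finrank {n : ℕ} {E : Fin n → Module.End ℂ U} (hE : CE E) :
    finrank ℂ (VE E) = n := by
  have := finrank_span_eq_card (Cl_indep hE)
  rw [Fintype.card_fin] at this
  exact this

omit [FiniteDimensional ℂ U] [Nontrivial U] in
theorem Cl_mem_so {n : ℕ} {E : Fin n → Module.End ℂ U} {i j : Fin n} (h : i ≠ j) :
    E i * E j ∈ soE E := Submodule.subset_span ⟨i, j, h, rfl⟩

omit [FiniteDimensional ℂ U] [Nontrivial U] in
theorem Cl_comm_mem {n : ℕ} {E : Fin n → Module.End ℂ U} {v w : Module.End ℂ U} (hv : v ∈ VE E)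
    (hw : w ∈ VE E) : v * w - w * v ∈ soE E := by
  refine Submodule.span_induction (p := fun v _ => v * w - w * v ∈ soE E) ?_ ?_ ?_ ?_ hv
  · rintro _ ⟨i, rfl⟩
    refine Submodule.span_induction (p := fun w _ => E i * w - w * E i ∈ soE E) ?_ ?_ ?_ ?_ hw
    · rintro _ ⟨j, rfl⟩
      by_cases h : i = j
      · subst h
        rw [sub_self]
        exact zero_mem _
      · exact sub_mem (Cl_mem_so h) (Cl_mem_so (Ne.symm h))
    · simp
    · intro x y _ _ hx hy
      have := add_mem hx hy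
      have e : E i * (x + y) - (x + y) * E i = E i * x - x * E i + (E i * y - y * E i) := by
        rw [mul_add, add_mul]; abel
      rw [e]
      exact this
    · intro c x _ hx
      rw [mul_smul_comm, smul_mul_assoc, ← smul_sub]
      exact Submodule.smul_mem _ _ hx
  · simp
  · intro x y _ _ hx hy
    have := add_mem hx hy
    have e : (x + y) * w - w * (x + y) = x * w - w * x + (y * w - w * y) := by
      rw [mul_add, add_mul]; abel
    rw [e]
    exact this
  · intro c x _ hx
    rw [mul_smul_comm, smul_mul_assoc, ← smul_sub]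
    exact Submodule.smul_mem _ _ hx

theorem soE_eq {n : ℕ} {E : Fin n → Module.End ℂ U} (hE : CE E) :
    soE E = Submodule.span ℂ {x | ∃ v ∈ VE E, ∃ w ∈ VE E, x = v * w - w * v} := by
  refine le_antisymm (Submodule.span_le.2 ?_) (Submodule.span_le.2 ?_)
  · rintro _ ⟨i, j, h, rfl⟩
    have e : E i * E j = (1 / 2 : ℂ) • (E i * E j - E j * E i) := by
      rw [hE.anti j i (Ne.symm h), sub_neg_eq_add, ← two_smul ℂ (E i * E j), smul_smul]
      norm_num
    rw [e]
    exact Submodule.smul_mem _ _ (Submodule.subset_span ⟨E i, Submodule.subset_span ⟨i, rfl⟩, E j,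
      Submodule.subset_span ⟨j, rfl⟩, rfl⟩)
  · rintro _ ⟨v, hv, w, hw, rfl⟩
    exact Cl_comm_mem hv hw

omit [FiniteDimensional ℂ U] [Nontrivial U] in
theorem Cl_br {n : ℕ} {E : Fin n → Module.End ℂ U} (hE : CE E) {i j : Fin n} (h : i ≠ j)
    (k : Fin n) : E i * E j * E k - E k * (E i * E j) =
      (if k = j then (2 : ℂ) • E i else 0) - (if k = i then (2 : ℂ) • E j else 0) := by
  by_cases h1 : k = j
  · subst h1
    rw [if_pos rfl, if_neg (Ne.symm h), sub_zero, mul_assoc, hE.sq, mul_one, ← mul_assoc,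
      hE.anti k i (Ne.symm h), neg_mul, mul_assoc, hE.sq, mul_one, two_smul, sub_neg_eq_add]
  by_cases h2 : k = i
  · subst h2
    rw [if_neg h1, if_pos rfl, zero_sub, ← mul_assoc, hE.sq, one_mul, hE.anti k j h, neg_mul,
      mul_assoc, hE.sq, mul_one, two_smul]
    abel
  · rw [if_neg h1, if_neg h2, sub_zero, ← mul_assoc, hE.anti k i h2, neg_mul, mul_assoc (E i) (E k),
      hE.anti k j h1, mul_neg, neg_neg, mul_assoc, sub_self]

theorem soE_stab {n : ℕ} {E : Fin n → Module.End ℂ U} (hE : CE E) {x : Module.End ℂ U}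
    (hx : x ∈ soE E) {v : Module.End ℂ U} (hv : v ∈ VE E) : x * v - v * x ∈ VE E := by
  refine Submodule.span_induction (p := fun x _ => x * v - v * x ∈ VE E) ?_ ?_ ?_ ?_ hx
  · rintro _ ⟨i, j, h, rfl⟩
    refine Submodule.span_induction (p := fun v _ => E i * E j * v - v * (E i * E j) ∈ VE E)
      ?_ ?_ ?_ ?_ hv
    · rintro _ ⟨k, rfl⟩
      rw [Cl_br hE h]
      refine sub_mem ?_ ?_
      · split_ifs
        · exact Submodule.smul_mem _ _ (Submodule.subset_span ⟨i, rfl⟩)
        · exact zero_mem _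
      · split_ifs
        · exact Submodule.smul_mem _ _ (Submodule.subset_span ⟨j, rfl⟩)
        · exact zero_mem _
    · simp
    · intro x y _ _ hx hy
      have := add_mem hx hy
      have e : E i * E j * (x + y) - (x + y) * (E i * E j) =
          E i * E j * x - x * (E i * E j) + (E i * E j * y - y * (E i * E j)) := by
        rw [mul_add, add_mul]; abel
      rw [e]
      exact this
    · intro c x _ hx
      rw [mul_smul_comm, smul_mul_assoc, ← smul_sub]
      exact Submodule.smul_mem _ _ hx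
  · simp
  · intro x y _ _ hx hy
    have := add_mem hx hy
    have e : (x + y) * v - v * (x + y) = x * v - v * x + (y * v - v * y) := by
      rw [mul_add, add_mul]; abel
    rw [e]
    exact this
  · intro c x _ hx
    rw [mul_smul_comm, smul_mul_assoc, ← smul_sub]
    exact Submodule.smul_mem _ _ hx

/-- An element of `so(n)` is determined by its action on the vectors. -/
theorem soE_rec {n : ℕ} {E : Fin n → Module.End ℂ U} (hE : CE E) {x : Module.End ℂ U}
    (hx : x ∈ soE E) : (4 : ℂ) • x = ∑ i, (x * E i - E i * x) * E i := by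
  refine Submodule.span_induction (p := fun x _ =>
    (4 : ℂ) • x = ∑ i, (x * E i - E i * x) * E i) ?_ ?_ ?_ ?_ hx
  · rintro _ ⟨i, j, h, rfl⟩
    simp only [Cl_br hE h, sub_mul, ite_mul, zero_mul, Finset.sum_sub_distrib, Finset.sum_ite_eq',
      Finset.mem_univ, if_true]
    rw [smul_mul_assoc, smul_mul_assoc, hE.anti j i (Ne.symm h), smul_neg, sub_neg_eq_add,
      ← add_smul]
    norm_num
  · simp
  · intro x y _ _ hx hy
    rw [smul_add, hx, hy, ← Finset.sum_add_distrib]
    refine Finset.sum_congr rfl fun i _ => ?_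
    rw [← add_mul]
    congr 1
    rw [mul_add, add_mul]
    abel
  · intro c x _ hx
    rw [smul_comm, hx, Finset.smul_sum]
    refine Finset.sum_congr rfl fun i _ => ?_
    rw [mul_smul_comm, smul_mul_assoc, ← smul_sub, smul_mul_assoc]

theorem adjoin_mul {n : ℕ} {E : Fin n → Module.End ℂ U} (𝔥 : Submodule ℂ (Module.End ℂ U))
    (gen : ∀ i j, E i * E j ∈ Algebra.adjoin ℂ (𝔥 : Set (Module.End ℂ U))) :
    ∀ v ∈ VE E, ∀ w ∈ VE E, v * w ∈ Algebra.adjoin ℂ (𝔥 : Set (Module.End ℂ U)) := by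
  intro v hv w hw
  refine Submodule.span_induction
    (p := fun v _ => v * w ∈ Algebra.adjoin ℂ (𝔥 : Set (Module.End ℂ U))) ?_ ?_ ?_ ?_ hv
  · rintro _ ⟨i, rfl⟩
    refine Submodule.span_induction
      (p := fun w _ => E i * w ∈ Algebra.adjoin ℂ (𝔥 : Set (Module.End ℂ U))) ?_ ?_ ?_ ?_ hw
    · rintro _ ⟨j, rfl⟩
      exact gen i j
    · rw [mul_zero]
      exact zero_mem _
    · intro x y _ _ hx hy
      rw [mul_add]
      exact add_mem hx hy
    · intro c x _ hx
      rw [mul_smul_comm]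
      exact Subalgebra.smul_mem _ hx c
  · rw [zero_mul]
    exact zero_mem _
  · intro x y _ _ hx hy
    rw [add_mul]
    exact add_mem hx hy
  · intro c x _ hx
    rw [smul_mul_assoc]
    exact Subalgebra.smul_mem _ hx c

end Pool.Agent.Y102.SP
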