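import Pool.Agent.H86.CMLib.Y102.SP.Abs
import Pool.Agent.H86.CMLib.Y102.SP.Cl

set_option autoImplicit false

open Module

namespace Pool.Agent.Y102.SP

attribute [local instance 100] LieRing.ofAssociativeRing

variable {U : Type} [AddCommGroup U] [Module ℂ U] [FiniteDimensional ℂ U] [Nontrivial U]

omit [FiniteDimensional ℂ U] [Nontrivial U] in
/-- Subspaces stable under generators are stable under the algebra. -/
theorem kil_adj (S : Set (Module.End ℂ U)) (P : Submodule ℂ U)
    (hP : ∀ x ∈ S, ∀ u ∈ P, x u ∈ P) :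
    ∀ x ∈ Algebra.adjoin ℂ S, ∀ u ∈ P, x u ∈ P := by
  intro x hx
  induction hx using Algebra.adjoin_induction with
  | mem x hx => exact hP x hx
  | algebraMap r =>
    intro u hu
    rw [Module.algebraMap_end_apply]
    exact P.smul_mem r hu
  | add x y _ _ hx hy =>
    intro u hu
    exact P.add_mem (hx u hu) (hy u hu)
  | mul x y _ _ hx hy =>
    intro u hu
    exact hx _ (hy u hu)

omit [FiniteDimensional ℂ U] [Nontrivial U] in
theorem kil_soE_stab {n : ℕ} {E : Fin n → Module.End ℂ U} (P : Submodule ℂ U)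
    (hP : ∀ i j, ∀ u ∈ P, (E i * E j) u ∈ P) (x : Module.End ℂ U) (hx : x ∈ soE E) :
    ∀ u ∈ P, x u ∈ P := by
  induction hx using Submodule.span_induction with
  | mem x hx =>
    obtain ⟨i, j, _, rfl⟩ := hx
    exact hP i j
  | zero => intro u _; exact P.zero_mem
  | add x y _ _ hx hy => intro u hu; exact P.add_mem (hx u hu) (hy u hu)
  | smul c x _ hx => intro u hu; exact P.smul_mem c (hx u hu)

omit [FiniteDimensional ℂ U] [Nontrivial U] in
/-- The elements of `so(n)` have trace zero on stable subspaces. -/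
theorem kil_trace {n : ℕ} (hn : 3 ≤ n) {E : Fin n → Module.End ℂ U} (hE : CE E)
    (P : Submodule ℂ U) (hP : ∀ i j, ∀ u ∈ P, (E i * E j) u ∈ P) (x : Module.End ℂ U)
    (hx : x ∈ soE E) :
    ∀ hxP : ∀ u ∈ P, x u ∈ P, LinearMap.trace ℂ P (x.restrict hxP) = 0 := by
  induction hx using Submodule.span_induction with
  | mem x hx =>
    obtain ⟨i, j, hij, rfl⟩ := hx
    intro hxP
    obtain ⟨k, hk⟩ : ∃ k : Fin n, k ∉ ({i, j} : Finset (Fin n)) := by
      by_contra hcon
      push Not at hcon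
      have h1 : (Finset.univ : Finset (Fin n)) ⊆ {i, j} := fun k _ => hcon k
      have h2 := Finset.card_le_card h1
      rw [Finset.card_univ, Fintype.card_fin] at h2
      have h3 : ({i, j} : Finset (Fin n)).card ≤ 2 := Finset.card_le_two
      omega
    rw [Finset.mem_insert, Finset.mem_singleton, not_or] at hk
    obtain ⟨hki, hkj⟩ := hk
    have g2 : (E i * E k) * (E i * E k) = -1 := by
      calc (E i * E k) * (E i * E k) = E i * (E k * E i) * E k := by noncomm_ring
        _ = E i * (-(E i * E k)) * E k := by rw [hE.anti k i hki]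
        _ = -((E i * E i) * (E k * E k)) := by noncomm_ring
        _ = -1 := by rw [hE.sq, hE.sq, mul_one]
    have g3 : (E i * E k) * (E i * E j) * (E i * E k) = E i * E j := by
      calc (E i * E k) * (E i * E j) * (E i * E k)
          = E i * (E k * E i) * E j * E i * E k := by noncomm_ring
        _ = E i * (-(E i * E k)) * E j * E i * E k := by rw [hE.anti k i hki]
        _ = -((E i * E i) * E k * (E j * (E i * E k))) := by noncomm_ring
        _ = -(E k * (E j * (-(E k * E i)))) := by rw [hE.sq, hE.anti i k (Ne.symm hki), one_mul]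
        _ = E k * (E j * E k) * E i := by noncomm_ring
        _ = E k * (-(E k * E j)) * E i := by rw [hE.anti j k (Ne.symm hkj)]
        _ = -((E k * E k) * (E j * E i)) := by noncomm_ring
        _ = -(E j * E i) := by rw [hE.sq, one_mul]
        _ = E i * E j := (hE.anti i j hij).symm
    set X : Module.End ℂ P := (E i * E j).restrict hxP with hX
    set G : Module.End ℂ P := (E i * E k).restrict (hP i k) with hG
    have hGG : G * (G * X) = -X := by
      refine LinearMap.ext fun u => Subtype.ext ?_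
      exact LinearMap.congr_fun g2 (X u).1
    have hGX : G * X * G = X := by
      refine LinearMap.ext fun u => Subtype.ext ?_
      exact LinearMap.congr_fun g3 u.1
    have h1 : LinearMap.trace ℂ P X = -LinearMap.trace ℂ P X := by
      calc LinearMap.trace ℂ P X = LinearMap.trace ℂ P (G * X * G) := by rw [hGX]
        _ = LinearMap.trace ℂ P (G * (G * X)) := LinearMap.trace_mul_comm ℂ _ _
        _ = LinearMap.trace ℂ P (-X) := by rw [hGG]
        _ = -LinearMap.trace ℂ P X := by rw [map_neg]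
    have h2 : (2 : ℂ) * LinearMap.trace ℂ P X = 0 := by linear_combination h1
    simpa using h2
  | zero =>
    intro hxP
    have : (0 : Module.End ℂ U).restrict hxP = 0 := rfl
    rw [this, map_zero]
  | add x y hx' hy' hx hy =>
    intro hxP
    have h1 := kil_soE_stab P hP x hx'
    have h2 := kil_soE_stab P hP y hy'
    have h3 : (x + y).restrict hxP = x.restrict h1 + y.restrict h2 := rfl
    rw [h3, map_add, hx h1, hy h2, add_zero]
  | smul c x hx' hx =>
    intro hxP
    have h1 := kil_soE_stab P hP x hx'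
    have h3 : (c • x).restrict hxP = c • x.restrict h1 := rfl
    rw [h3, map_smul, hx h1, smul_zero]

omit [FiniteDimensional ℂ U] in
/-- The criterion for a subspace to be everything. -/
theorem kil_top {n : ℕ} (hn : 3 ≤ n) {E : Fin n → Module.End ℂ U} (hE : CE E)
    (irr : ∀ P : Submodule ℂ U, (∀ i, ∀ u ∈ P, E i u ∈ P) → P = ⊥ ∨ P = ⊤)
    (S : Set (Module.End ℂ U)) (hS : ∀ x ∈ S, x ∈ soE E)
    (gen : ∀ i j, E i * E j ∈ Algebra.adjoin ℂ S) (W : Submodule ℂ U)
    (hW : ∀ x ∈ S, ∀ u ∈ W, x u ∈ W)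
    (key : ∀ N : Submodule ℂ U, N ≠ ⊥ → (∀ x ∈ S, ∀ u ∈ N, x u ∈ N) → W ⊓ N ≠ ⊥) :
    W = ⊤ := by
  have hA := kil_adj S W hW
  have hij : ∀ i j, ∀ u ∈ W, E i (E j u) ∈ W := fun i j => hA _ (gen i j)
  obtain ⟨o⟩ : Nonempty (Fin n) := ⟨⟨0, by omega⟩⟩
  have sq : ∀ i u, E i (E i u) = u := fun i u => LinearMap.congr_fun (hE.sq i) u
  have hW0 : W ≠ ⊥ := by
    have h1 := key ⊤ (by exact top_ne_bot) (fun _ _ _ _ => trivial)
    rwa [inf_top_eq] at h1
  have hNij : ∀ i j, ∀ u ∈ W.map (E o), (E i * E j) u ∈ W.map (E o) := by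
    rintro i j _ ⟨w, hw, rfl⟩
    refine ⟨E o (E i (E j (E o w))), hij o i _ (hij j o w hw), ?_⟩
    rw [sq]
    rfl
  have hNS : ∀ x ∈ S, ∀ u ∈ W.map (E o), x u ∈ W.map (E o) :=
    fun x hx => kil_soE_stab _ hNij x (hS x hx)
  have hN : W.map (E o) ≠ ⊥ := by
    intro h
    apply hW0
    rw [Submodule.eq_bot_iff]
    intro w hw
    have h1 : E o w ∈ W.map (E o) := ⟨w, hw, rfl⟩
    rw [h, Submodule.mem_bot] at h1
    rw [← sq o w, h1, map_zero]
  have h1 := key _ hN hNS
  rcases irr (W ⊓ W.map (E o)) (by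
    rintro i u ⟨hu, w, hw, rfl⟩
    refine ⟨hij i o w hw, E o (E i (E o w)), hij o i _ hu, sq _ _⟩) with h2 | h2
  · exact absurd h2 h1
  · rw [eq_top_iff, ← h2]
    exact inf_le_left

section kil

variable {T : Type} [AddCommGroup T] [Module ℂ T] (ι : T →ₗ[ℂ] Module.End ℂ U)

omit [Nontrivial U] in
/-- Commuting endomorphisms have a common eigenvector in every nonzero stable subspace. -/
theorem kil_eig (comm : ∀ s t, ι s * ι t = ι t * ι s) :
    ∀ (d : ℕ) (N : Submodule ℂ U), finrank ℂ N ≤ d → N ≠ ⊥ → (∀ t, ∀ u ∈ N, ι t u ∈ N) →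
      ∃ χ : Module.Dual ℂ T, ∃ u ∈ N, u ≠ 0 ∧ u ∈ usp ι χ := by
  have comm' : ∀ s t u, ι s (ι t u) = ι t (ι s u) := fun s t u =>
    LinearMap.congr_fun (comm s t) u
  intro d
  induction d with
  | zero =>
    intro N hd hN _
    exact absurd (Submodule.finrank_eq_zero.1 (Nat.le_zero.1 hd)) hN
  | succ d ih =>
    intro N hd hN hst
    by_cases hc : ∀ t, ∃ c : ℂ, ∀ u ∈ N, ι t u = c • u
    · choose c hc using hc
      obtain ⟨u, hu, hu0⟩ := (Submodule.ne_bot_iff N).1 hN
      refine ⟨{ toFun := c, map_add' := fun s t => ?_, map_smul' := fun a t => ?_ }, u, hu, hu0,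
        fun t => hc t u hu⟩
      · have h1 := hc (s + t) u hu
        rw [map_add, LinearMap.add_apply, hc s u hu, hc t u hu, ← add_smul] at h1
        exact (smul_left_injective ℂ hu0 h1).symm
      · have h1 := hc (a • t) u hu
        rw [map_smul, LinearMap.smul_apply, hc t u hu, smul_smul] at h1
        exact (smul_left_injective ℂ hu0 h1).symm
    · push Not at hc
      obtain ⟨t, ht⟩ := hc
      have : Nontrivial N := Submodule.nontrivial_iff_ne_bot.2 hN
      obtain ⟨μ, hμ⟩ := Module.End.exists_eigenvalue ((ι t).restrict (hst t))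
      obtain ⟨v, hv⟩ := hμ.exists_hasEigenvector
      let N' : Submodule ℂ U := N ⊓ Module.End.eigenspace (ι t) μ
      have hN'm : ∀ u, u ∈ N' ↔ u ∈ N ∧ ι t u = μ • u := fun u => by
        rw [Submodule.mem_inf, Module.End.mem_eigenspace_iff]
      have h1 : v.1 ∈ N' := (hN'm _).2 ⟨v.2, congrArg Subtype.val hv.apply_eq_smul⟩
      have h2 : N' ≠ ⊥ := fun h => by
        rw [h, Submodule.mem_bot] at h1
        exact hv.2 (Subtype.ext h1)
      have h3 : N' < N := by
        refine lt_of_le_of_ne inf_le_left fun h => ?_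
        obtain ⟨u, hu, hu0⟩ := ht μ
        rw [← h] at hu
        exact hu0 ((hN'm u).1 hu).2
      have h4 : finrank ℂ N' ≤ d := by
        have := Submodule.finrank_lt_finrank_of_lt h3
        omega
      obtain ⟨χ, u, hu, h5⟩ := ih N' h4 h2 fun s u hu => by
        rw [hN'm] at hu ⊢
        refine ⟨hst s u hu.1, ?_⟩
        rw [comm', hu.2, map_smul]
      exact ⟨χ, u, ((hN'm u).1 hu).1, h5⟩

/-- The space is the sum of the weight spaces. -/
theorem kil_usp {n : ℕ} (hn : 3 ≤ n) {E : Fin n → Module.End ℂ U} (hE : CE E)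
    (irr : ∀ P : Submodule ℂ U, (∀ i, ∀ u ∈ P, E i u ∈ P) → P = ⊥ ∨ P = ⊤)
    (𝔥 : Submodule ℂ (Module.End ℂ U)) (h𝔥 : 𝔥 ≤ soE E)
    (gen : ∀ i j, E i * E j ∈ Algebra.adjoin ℂ (𝔥 : Set (Module.End ℂ U)))
    (Φ : Set (Module.Dual ℂ T)) (e : Module.Dual ℂ T → Module.End ℂ U)
    (ιmem : ∀ t, ι t ∈ 𝔥)
    (span : 𝔥 ≤ LinearMap.range ι ⊔ Submodule.span ℂ (e '' Φ))
    (comm : ∀ s t, ι s * ι t = ι t * ι s)
    (wt : ∀ α ∈ Φ, ∀ t, ι t * e α - e α * ι t = α t • e α) :
    (⨆ χ, usp ι χ) = ⊤ := by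
  have comm' : ∀ s t u, ι s (ι t u) = ι t (ι s u) := fun s t u =>
    LinearMap.congr_fun (comm s t) u
  have usp_le : ∀ χ u, u ∈ usp ι χ → u ∈ ⨆ χ, usp ι χ := fun χ u hu =>
    Submodule.mem_iSup_of_mem χ hu
  refine kil_top hn hE irr (𝔥 : Set (Module.End ℂ U)) h𝔥 gen _ ?_ ?_
  · have hι : ∀ t, ∀ u ∈ ⨆ χ, usp ι χ, ι t u ∈ ⨆ χ, usp ι χ := by
      intro t u hu
      induction hu using Submodule.iSup_induction' with
      | mem χ u hu =>
        rw [hu t]
        exact Submodule.smul_mem _ _ (usp_le χ u hu)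
      | zero => rw [map_zero]; exact Submodule.zero_mem _
      | add u v _ _ hu hv => rw [map_add]; exact Submodule.add_mem _ hu hv
    have he : ∀ α ∈ Φ, ∀ u ∈ ⨆ χ, usp ι χ, e α u ∈ ⨆ χ, usp ι χ := by
      intro α hα u hu
      induction hu using Submodule.iSup_induction' with
      | mem χ u hu =>
        refine usp_le (χ + α) _ fun t => ?_
        have h1 := LinearMap.congr_fun (wt α hα t) u
        rw [LinearMap.sub_apply, Module.End.mul_apply, Module.End.mul_apply, hu t, map_smul,
          LinearMap.smul_apply, sub_eq_iff_eq_add] at h1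
        rw [h1, LinearMap.add_apply, add_smul, add_comm]
      | zero => rw [map_zero]; exact Submodule.zero_mem _
      | add u v _ _ hu hv => rw [map_add]; exact Submodule.add_mem _ hu hv
    intro x hx u hu
    obtain ⟨y, ⟨t, rfl⟩, z, hz, rfl⟩ := Submodule.mem_sup.1 (span hx)
    rw [LinearMap.add_apply]
    refine Submodule.add_mem _ (hι t u hu) ?_
    clear hx
    induction hz using Submodule.span_induction with
    | mem z hz =>
      obtain ⟨α, hα, rfl⟩ := hz
      exact he α hα u hu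
    | zero => exact Submodule.zero_mem _
    | add y z _ _ hy hz => exact Submodule.add_mem _ hy hz
    | smul c z _ hz => exact Submodule.smul_mem _ c hz
  · intro N hN hNS h
    obtain ⟨χ, u, hu, hu0, hu1⟩ := kil_eig ι comm _ N le_rfl hN fun t u hu =>
      hNS _ (ιmem t) u hu
    have h1 : u ∈ (⨆ χ, usp ι χ) ⊓ N := ⟨usp_le χ u hu1, hu⟩
    rw [h, Submodule.mem_bot] at h1
    exact hu0 h1

omit [Nontrivial U] in
/-- The endomorphisms are sums of weight vectors. -/
theorem kil_wsp (h : (⨆ χ, usp ι χ) = ⊤) : (⨆ χ, wsp ι χ) = ⊤ := by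
  let s : Set U := {u | ∃ χ, u ∈ usp ι χ}
  have hs : ⊤ ≤ Submodule.span ℂ s := by
    rw [← h]
    exact iSup_le fun χ u hu => Submodule.subset_span ⟨χ, hu⟩
  let b := Basis.ofSpan hs
  have hb : ∀ i, ∃ χ, b i ∈ usp ι χ := fun i => Basis.ofSpan_subset hs ⟨i, rfl⟩
  choose w hw using hb
  have : Finite ((linearIndepOn_empty ℂ (id : U → U)).extend (Set.empty_subset s)) :=
    Module.Finite.finite_basis b
  have := Fintype.ofFinite ((linearIndepOn_empty ℂ (id : U → U)).extend (Set.empty_subset s))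
  rw [eq_top_iff]
  intro x _
  have hx : x = ∑ j, (b.coord j).smulRight (x (b j)) := by
    refine b.ext fun i => ?_
    rw [LinearMap.sum_apply, Finset.sum_eq_single i]
    · rw [LinearMap.smulRight_apply, Basis.coord_apply, Basis.repr_self, Finsupp.single_eq_same,
        one_smul]
    · intro j _ hj
      rw [LinearMap.smulRight_apply, Basis.coord_apply, Basis.repr_self,
        Finsupp.single_eq_of_ne (by exact hj), zero_smul]
    · intro hi
      exact absurd (Finset.mem_univ i) hi
  have hcoord : ∀ j t u, b.coord j (ι t u) = w j t * b.coord j u := by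
    intro j t
    have h1 : (b.coord j) ∘ₗ (ι t) = (w j t) • (b.coord j) := by
      refine b.ext fun i => ?_
      rw [LinearMap.comp_apply, hw i t, map_smul, LinearMap.smul_apply, Basis.coord_apply,
        Basis.repr_self, smul_eq_mul, smul_eq_mul]
      by_cases hij : j = i
      · rw [hij]
      · rw [Finsupp.single_eq_of_ne (by exact hij), mul_zero, mul_zero]
    exact fun u => LinearMap.congr_fun h1 u
  have key : ∀ j, ∀ v : U, (b.coord j).smulRight v ∈ ⨆ χ, wsp ι χ := by
    intro j v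
    have hv : v ∈ ⨆ χ, usp ι χ := by rw [h]; trivial
    induction hv using Submodule.iSup_induction' with
    | mem χ v hv =>
      refine Submodule.mem_iSup_of_mem (χ - w j) fun t => ?_
      refine LinearMap.ext fun u => ?_
      rw [LinearMap.sub_apply, Module.End.mul_apply, Module.End.mul_apply,
        LinearMap.smulRight_apply, LinearMap.smulRight_apply, map_smul, hv t, hcoord,
        LinearMap.smul_apply, LinearMap.smulRight_apply, LinearMap.sub_apply, smul_smul, smul_smul,
        ← sub_smul]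
      congr 1
      ring
    | zero =>
      have : (b.coord j).smulRight (0 : U) = 0 := by
        refine LinearMap.ext fun u => ?_
        rw [LinearMap.smulRight_apply, smul_zero, LinearMap.zero_apply]
      rw [this]
      exact Submodule.zero_mem _
    | add u v _ _ hu hv =>
      have : (b.coord j).smulRight (u + v) = (b.coord j).smulRight u + (b.coord j).smulRight v := by
        refine LinearMap.ext fun u => ?_
        rw [LinearMap.add_apply, LinearMap.smulRight_apply, LinearMap.smulRight_apply,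
          LinearMap.smulRight_apply, smul_add]
      rw [this]
      exact Submodule.add_mem _ hu hv
  rw [hx]
  exact Submodule.sum_mem _ fun j _ => key j _

omit [FiniteDimensional ℂ U] [Nontrivial U] in
/-- The components of an element of a stable space. -/
theorem kil_comp (V : Submodule ℂ (Module.End ℂ U))
    (hV : ∀ t, ∀ v ∈ V, ι t * v - v * ι t ∈ V) (F : Finset (Module.Dual ℂ T)) :
    ∀ f : Module.Dual ℂ T → Module.End ℂ U, (∀ χ, f χ ∈ wsp ι χ) → ∑ χ ∈ F, f χ ∈ V →
      ∀ χ ∈ F, f χ ∈ V := by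
  classical
  induction F using Finset.induction_on with
  | empty => intro f _ _ χ hχ; exact absurd hχ (Finset.notMem_empty χ)
  | insert ψ F hψ ih =>
    intro f hf hsum
    have h1 : ∀ χ ∈ F, f χ ∈ V := by
      intro χ hχ
      have hne : χ ≠ ψ := fun h => hψ (h ▸ hχ)
      obtain ⟨t, ht⟩ : ∃ t, χ t ≠ ψ t := by
        by_contra hcon
        push Not at hcon
        exact hne (LinearMap.ext hcon)
      have h2 := ih (fun χ' => (χ' t - ψ t) • f χ')
        (fun χ' => Submodule.smul_mem _ _ (hf χ')) ?_ χ hχ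
      · have h3 := V.smul_mem (χ t - ψ t)⁻¹ h2
        rwa [smul_smul, inv_mul_cancel₀ (sub_ne_zero.2 ht), one_smul] at h3
      · have h3 := V.sub_mem (hV t _ hsum) (V.smul_mem (ψ t) hsum)
        have h4 : ι t * (∑ χ' ∈ insert ψ F, f χ') - (∑ χ' ∈ insert ψ F, f χ') * ι t -
            ψ t • ∑ χ' ∈ insert ψ F, f χ' = ∑ χ' ∈ F, (χ' t - ψ t) • f χ' := by
          rw [Finset.mul_sum, Finset.sum_mul, ← Finset.sum_sub_distrib, Finset.smul_sum,
            ← Finset.sum_sub_distrib, Finset.sum_insert hψ, hf ψ t, sub_self, zero_add]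
          refine Finset.sum_congr rfl fun χ' _ => ?_
          rw [hf χ' t, ← sub_smul]
        rw [h4] at h3
        exact h3
    intro χ hχ
    rcases Finset.mem_insert.1 hχ with rfl | hχ
    · rw [Finset.sum_insert hψ] at hsum
      have h2 := V.sub_mem hsum (V.sum_mem h1)
      rwa [add_sub_cancel_right] at h2
    · exact h1 χ hχ

end kil

open LieAlgebra LieModule in
/-- The Lie algebra is semisimple. -/
theorem isKilling {n : ℕ} (hn : 3 ≤ n) {E : Fin n → Module.End ℂ U} (hE : CE E)
    (irr : ∀ P : Submodule ℂ U, (∀ i, ∀ u ∈ P, E i u ∈ P) → P = ⊥ ∨ P = ⊤)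
    (L : LieSubalgebra ℂ (Module.End ℂ U)) (hL : ∀ x ∈ L, x ∈ soE E)
    (gen : ∀ i j, E i * E j ∈ Algebra.adjoin ℂ (L : Set (Module.End ℂ U))) :
    LieAlgebra.IsKilling ℂ L := by
  let W0 : Submodule ℂ U :=
    { carrier := {u | ∀ y ∈ radical ℂ L, y.1 u = 0}
      zero_mem' := fun y _ => map_zero _
      add_mem' := fun {a b} ha hb y hy => by rw [map_add, ha y hy, hb y hy, add_zero]
      smul_mem' := fun c a ha y hy => by rw [map_smul, ha y hy, smul_zero] }
  have hW0 : ∀ u, u ∈ W0 ↔ ∀ y ∈ radical ℂ L, y.1 u = 0 := fun u => Iff.rfl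
  have htop : W0 = ⊤ := by
    refine kil_top hn hE irr (L : Set (Module.End ℂ U)) hL gen W0 ?_ ?_
    · intro x hx u hu
      rw [hW0] at hu ⊢
      intro y hy
      have h1 : ⁅(⟨x, hx⟩ : L), y⁆ ∈ radical ℂ L := (radical ℂ L).lie_mem hy
      have h2 := hu _ h1
      have h3 : (⁅(⟨x, hx⟩ : L), y⁆ : L).1 = x * y.1 - y.1 * x := rfl
      rw [h3, LinearMap.sub_apply, Module.End.mul_apply, Module.End.mul_apply, hu y hy, map_zero,
        zero_sub, neg_eq_zero] at h2
      exact h2
    · intro N0 hN0 hN0L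
      let N : LieSubmodule ℂ L U := { N0 with lie_mem := fun {x u} hu => hN0L x.1 x.2 u hu }
      have : Nontrivial N := by
        rw [Submodule.ne_bot_iff] at hN0
        obtain ⟨u, hu, hu0⟩ := hN0
        exact nontrivial_of_ne (⟨u, hu⟩ : N) 0 (fun h => hu0 (congrArg Subtype.val h))
      obtain ⟨χ, hχ⟩ := exists_nontrivial_weightSpace_of_isSolvable ℂ (radical ℂ L) N
      let P' : LieSubmodule ℂ L N := weightSpaceOfIsLieTower ℂ N χ
      have hP' : ∀ v : N, v ∈ P' ↔ ∀ y : radical ℂ L, ⁅y, v⁆ = χ y • v := fun v =>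
        mem_weightSpace _ v
      let P : Submodule ℂ U := P'.toSubmodule.map (N.incl : N →ₗ[ℂ] U)
      have hPN : ∀ u ∈ P, u ∈ N0 := by
        rintro _ ⟨v, _, rfl⟩
        exact v.2
      have hPL : ∀ x ∈ (L : Set (Module.End ℂ U)), ∀ u ∈ P, x u ∈ P := by
        rintro x hx _ ⟨v, hv, rfl⟩
        exact ⟨⁅(⟨x, hx⟩ : L), v⁆, P'.lie_mem hv, rfl⟩
      have hPE : ∀ i j, ∀ u ∈ P, (E i * E j) u ∈ P := fun i j => kil_adj _ P hPL _ (gen i j)
      have hPχ : ∀ y (hy : y ∈ radical ℂ L), ∀ u ∈ P, y.1 u = χ ⟨y, hy⟩ • u := by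
        rintro y hy _ ⟨v, hv, rfl⟩
        have h1 := (hP' v).1 hv ⟨y, hy⟩
        exact congrArg Subtype.val h1
      have hP0 : ∃ u ∈ P, u ≠ 0 := by
        obtain ⟨v, hv⟩ := exists_ne (0 : weightSpace N χ)
        refine ⟨v.1.1, ⟨v.1, v.2, rfl⟩, fun h => hv ?_⟩
        exact Subtype.ext (Subtype.ext h)
      have hχ0 : ∀ y (hy : y ∈ radical ℂ L), χ ⟨y, hy⟩ = 0 := by
        intro y hy
        have h1 : ∀ u ∈ P, y.1 u ∈ P := fun u hu => by
          rw [hPχ y hy u hu]
          exact P.smul_mem _ hu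
        have h2 := kil_trace hn hE P hPE y.1 (hL _ y.2) h1
        have h3 : y.1.restrict h1 = χ ⟨y, hy⟩ • (LinearMap.id : P →ₗ[ℂ] P) := by
          refine LinearMap.ext fun u => Subtype.ext ?_
          exact hPχ y hy u.1 u.2
        rw [h3, map_smul, LinearMap.trace_id, smul_eq_mul, mul_eq_zero] at h2
        rcases h2 with h2 | h2
        · exact h2
        · exfalso
          have h4 : finrank ℂ P = 0 := by exact_mod_cast h2
          rw [Submodule.finrank_eq_zero] at h4
          obtain ⟨u, hu, hu0⟩ := hP0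
          rw [h4, Submodule.mem_bot] at hu
          exact hu0 hu
      obtain ⟨u, hu, hu0⟩ := hP0
      intro h
      have h1 : u ∈ W0 ⊓ N0 := by
        refine ⟨fun y hy => ?_, hPN u hu⟩
        rw [hPχ y hy u hu, hχ0 y hy, zero_smul]
      rw [h, Submodule.mem_bot] at h1
      exact hu0 h1
  have : HasTrivialRadical ℂ L := by
    constructor
    rw [eq_bot_iff]
    intro y hy
    have h1 : y.1 = 0 := by
      refine LinearMap.ext fun u => ?_
      have : u ∈ W0 := by rw [htop]; trivial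
      exact this y hy
    rw [LieSubmodule.mem_bot]
    exact Subtype.ext h1
  infer_instance

/-- Commuting elements with a root decomposition act diagonalizably on the vectors. -/
theorem exists_sys {n : ℕ} (hn : 3 ≤ n) {E : Fin n → Module.End ℂ U} (hE : CE E)
    (irr : ∀ P : Submodule ℂ U, (∀ i, ∀ u ∈ P, E i u ∈ P) → P = ⊥ ∨ P = ⊤)
    (𝔥 : Submodule ℂ (Module.End ℂ U)) (h𝔥 : 𝔥 ≤ soE E)
    (hbr : ∀ x ∈ 𝔥, ∀ y ∈ 𝔥, x * y - y * x ∈ 𝔥)
    (gen : ∀ i j, E i * E j ∈ Algebra.adjoin ℂ (𝔥 : Set (Module.End ℂ U))) :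
    ∃ (T : Type) (_ : AddCommGroup T) (_ : Module ℂ T), Nonempty (Sys (VE E) 𝔥 T) := by
  let L : LieSubalgebra ℂ (Module.End ℂ U) :=
    { 𝔥 with lie_mem' := fun {x y} hx hy => hbr x hx y hy }
  have : LieAlgebra.IsKilling ℂ L := isKilling hn hE irr L (fun x hx => h𝔥 hx) gen
  obtain ⟨T, i1, i2, ⟨A⟩⟩ := exists_absRoot L
  let ι : T →ₗ[ℂ] Module.End ℂ U := L.toSubmodule.subtype ∘ₗ A.ι
  let e : Module.Dual ℂ T → Module.End ℂ U := fun α => (A.e α).1
  have hι : ∀ t, ι t = (A.ι t).1 := fun t => rfl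
  have he : ∀ α, e α = (A.e α).1 := fun t => rfl
  have hlie : ∀ x y : L, (⁅x, y⁆ : L).1 = x.1 * y.1 - y.1 * x.1 := fun x y => rfl
  have ιmem : ∀ t, ι t ∈ 𝔥 := fun t => (A.ι t).2
  have emem : ∀ α ∈ A.R.Φ, e α ∈ 𝔥 := fun α _ => (A.e α).2
  have hspan : 𝔥 ≤ LinearMap.range ι ⊔ Submodule.span ℂ (e '' A.R.Φ) := by
    intro x hx
    have h1 : (⟨x, hx⟩ : L) ∈ LinearMap.range A.ι ⊔ Submodule.span ℂ (A.e '' A.R.Φ) :=
      A.span trivial
    have h2 : x ∈ (LinearMap.range A.ι ⊔ Submodule.span ℂ (A.e '' A.R.Φ)).map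
        L.toSubmodule.subtype := ⟨_, h1, rfl⟩
    rw [Submodule.map_sup, Submodule.map_span, ← Set.image_comp, ← LinearMap.range_comp] at h2
    exact h2
  have comm : ∀ s t, ι s * ι t = ι t * ι s := by
    intro s t
    have h1 := congrArg Subtype.val (A.comm s t)
    rw [hlie] at h1
    exact sub_eq_zero.1 h1
  have wt : ∀ α ∈ A.R.Φ, ∀ t, ι t * e α - e α * ι t = α t • e α := by
    intro α hα t
    have h1 := congrArg Subtype.val (A.wt α hα t)
    rw [hlie] at h1
    exact h1
  refine ⟨T, i1, i2, ⟨?_⟩⟩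
  exact
    { clif := hE.clif
      le := by rw [← soE_eq hE]; exact h𝔥
      stab := fun x hx v hv => soE_stab hE (h𝔥 hx) hv
      gen := adjoin_mul 𝔥 gen
      R := A.R
      ι := ι
      h := A.h
      e := e
      ιmem := ιmem
      emem := emem
      ene := fun α hα h0 => A.ene α hα (Subtype.ext h0)
      span := hspan
      comm := comm
      wt := wt
      br := fun α hα => by
        have h1 := congrArg Subtype.val (A.br α hα)
        rw [hlie] at h1
        exact h1
      hneg := A.hneg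
      prh := A.prh
      rat := A.rat
      add0 := fun α hα β hβ h0 h1 => by
        have h2 := congrArg Subtype.val (A.add0 α hα β hβ h0 h1)
        rw [hlie] at h2
        exact sub_eq_zero.1 h2
      add1 := fun α hα β hβ h0 => by
        obtain ⟨c, hc⟩ := A.add1 α hα β hβ h0
        have h2 := congrArg Subtype.val hc
        rw [hlie] at h2
        exact ⟨c, h2⟩
      vspan := by
        have hU := kil_usp ι hn hE irr 𝔥 h𝔥 gen A.R.Φ e ιmem hspan comm wt
        have hW := kil_wsp ι hU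
        intro x hx
        have hx' : x ∈ ⨆ χ, wsp ι χ := by rw [hW]; trivial
        rw [Submodule.mem_iSup_iff_exists_finsupp] at hx'
        obtain ⟨f, hf, hfx⟩ := hx'
        have h1 := kil_comp ι (VE E) (fun t v hv => soE_stab hE (h𝔥 (ιmem t)) hv) f.support f hf
          (by rw [Finsupp.sum] at hfx; rw [hfx]; exact hx)
        rw [← hfx, Finsupp.sum]
        exact Submodule.sum_mem _ fun χ hχ => Submodule.mem_iSup_of_mem χ ⟨h1 χ hχ, hf χ⟩ }

end Pool.Agent.Y102.SP
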