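import Pool.Agent.H86.CMLib.Y102.SP.Defs

set_option autoImplicit false

open Module

namespace Pool.Agent.Y102.SP

variable {X : Type} [AddCommGroup X] [Module ℚ X]

/-- Lexicographic combination of two functionals. -/
theorem lex2 {F : Set X} (hF : F.Finite) (φ ψ : X →ₗ[ℚ] ℚ) :
    ∃ χ : X →ₗ[ℚ] ℚ, (∀ x ∈ F, 0 < ψ x → 0 < χ x) ∧ (∀ x ∈ F, ψ x < 0 → χ x < 0) ∧
      ∀ x, ψ x = 0 → χ x = φ x := by
  have hK : ∃ K : ℚ, ∀ x ∈ F, ψ x ≠ 0 → |φ x / ψ x| < K := by
    obtain ⟨B, hB⟩ := (hF.image fun x => |φ x / ψ x|).bddAbove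
    refine ⟨B + 1, fun x hx _ => ?_⟩
    have h := hB ⟨x, hx, rfl⟩
    have h' : |φ x / ψ x| ≤ B := h
    linarith
  obtain ⟨K, hK⟩ := hK
  refine ⟨φ + K • ψ, ?_, ?_, ?_⟩
  · intro x hx hpos
    have h1 := hK x hx hpos.ne'
    rw [abs_lt] at h1
    have h2 : φ x = (φ x / ψ x) * ψ x := by field_simp
    show 0 < φ x + K • ψ x
    rw [smul_eq_mul, h2]
    nlinarith [h1.1]
  · intro x hx hneg
    have h1 := hK x hx hneg.ne
    rw [abs_lt] at h1
    have h2 : φ x = (φ x / ψ x) * ψ x := by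
      have := hneg.ne
      field_simp
    show φ x + K • ψ x < 0
    rw [smul_eq_mul, h2]
    nlinarith [h1.1]
  · intro x hx
    show φ x + K • ψ x = φ x
    rw [hx, smul_zero, add_zero]

/-- A functional which is zero on a subspace and not zero on the other elements of a finite set. -/
theorem avoid {F : Set X} (hF : F.Finite) (P : Submodule ℚ X) :
    ∃ ψ : X →ₗ[ℚ] ℚ, (∀ x ∈ P, ψ x = 0) ∧ ∀ x ∈ F, x ∉ P → ψ x ≠ 0 := by
  induction F, hF using Set.Finite.induction_on with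
  | empty => exact ⟨0, fun x _ => rfl, fun x hx => absurd hx (Set.notMem_empty x)⟩
  | @insert a s ha hs ih =>
    obtain ⟨ψ, h1, h2⟩ := ih
    by_cases haP : a ∈ P
    · refine ⟨ψ, h1, ?_⟩
      intro x hx hxP
      rcases Set.mem_insert_iff.1 hx with rfl | hx
      · exact absurd haP hxP
      · exact h2 x hx hxP
    · obtain ⟨θ, hθ, hθP⟩ := Submodule.exists_le_ker_of_notMem haP
      obtain ⟨χ, h3, h4, h5⟩ := lex2 (hs.insert a) θ ψ
      have hzero : ∀ x, ψ x = 0 → χ x = θ x := h5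
      refine ⟨χ, ?_, ?_⟩
      · intro x hx
        rw [hzero x (h1 x hx)]
        exact hθP hx
      · intro x hx hxP
        rcases lt_trichotomy (ψ x) 0 with h | h | h
        · exact (h4 x hx h).ne
        · rcases Set.mem_insert_iff.1 hx with rfl | hxs
          · rw [hzero _ h]
            exact hθ
          · exact absurd h (h2 x hxs hxP)
        · exact (h3 x hx h).ne'

end Pool.Agent.Y102.SP
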