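import Pool.Agent.H86.CMLib.Y102.SP.Defs

set_option autoImplicit false
set_option linter.unusedSectionVars false

open Module

namespace Pool.Agent.Y102.SP

/-- The root decomposition of a semisimple Lie algebra. -/
structure AbsRoot (L T : Type) [LieRing L] [LieAlgebra ℂ L] [AddCommGroup T] [Module ℂ T] where
  R : Root (Module.Dual ℂ T)
  ι : T →ₗ[ℂ] L
  h : Module.Dual ℂ T → T
  e : Module.Dual ℂ T → L
  inj : Function.Injective ι
  ene : ∀ α ∈ R.Φ, e α ≠ 0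
  span : ⊤ ≤ LinearMap.range ι ⊔ Submodule.span ℂ (e '' R.Φ)
  comm : ∀ s t, ⁅ι s, ι t⁆ = 0
  wt : ∀ α ∈ R.Φ, ∀ t, ⁅ι t, e α⁆ = α t • e α
  br : ∀ α ∈ R.Φ, ⁅e α, e (-α)⁆ = ι (h α)
  hneg : ∀ α ∈ R.Φ, h (-α) = -h α
  prh : ∀ α ∈ R.Φ, ∀ χ : Module.Dual ℂ T, (∃ q : ℚ, χ (h α) = q) → χ (h α) = (R.pr α χ : ℂ)
  rat : ∀ α ∈ R.Φ, ∀ β ∈ R.Φ, ∃ q : ℚ, β (h α) = q
  add0 : ∀ α ∈ R.Φ, ∀ β ∈ R.Φ, α + β ≠ 0 → α + β ∉ R.Φ → ⁅e α, e β⁆ = 0
  add1 : ∀ α ∈ R.Φ, ∀ β ∈ R.Φ, α + β ∈ R.Φ → ∃ c : ℂ, ⁅e α, e β⁆ = c • e (α + β)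

section Abs

open LieAlgebra LieModule LieAlgebra.IsKilling

variable {L : Type} [LieRing L] [LieAlgebra ℂ L] [FiniteDimensional ℂ L]
  [LieAlgebra.IsKilling ℂ L] {H : LieSubalgebra ℂ L} [H.IsCartanSubalgebra]

theorem Abs_retract : ∃ r : ℂ →ₗ[ℚ] ℚ, ∀ q : ℚ, r (q : ℂ) = q := by
  obtain ⟨g, hg⟩ := (Algebra.linearMap ℚ ℂ).exists_leftInverse_of_injective (by
    rw [LinearMap.ker_eq_bot]
    exact (algebraMap ℚ ℂ).injective)
  refine ⟨g, fun q => ?_⟩
  have h := LinearMap.congr_fun hg q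
  simpa using h

theorem Abs_inj {w w' : Weight ℂ H L} (h : Weight.toLinear ℂ H L w = Weight.toLinear ℂ H L w') :
    w = w' := by
  ext x
  exact LinearMap.congr_fun h x

/-- Extension of a function of the nonzero weights to the functionals. -/
noncomputable def Abs_ext {β : Type} (F : Weight ℂ H L → β) (d : β) (α : Module.Dual ℂ H) : β :=
  open Classical in
  if hα : ∃ w : Weight ℂ H L, w.IsNonZero ∧ Weight.toLinear ℂ H L w = α then F hα.choose else d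

theorem Abs_ext_eq {β : Type} (F : Weight ℂ H L → β) (d : β) {w : Weight ℂ H L}
    (hw : w.IsNonZero) : Abs_ext F d (Weight.toLinear ℂ H L w) = F w := by
  have h1 : ∃ w' : Weight ℂ H L, w'.IsNonZero ∧
      Weight.toLinear ℂ H L w' = Weight.toLinear ℂ H L w := ⟨w, hw, rfl⟩
  rw [Abs_ext, dif_pos h1]
  congr 1
  exact Abs_inj h1.choose_spec.2

/-- The root vectors. -/
theorem Abs_vec : ∃ e : Weight ℂ H L → L, ∀ w : Weight ℂ H L, w.IsNonZero →
    e w ∈ rootSpace H w ∧ e w ≠ 0 ∧ ⁅e w, e (-w)⁆ = (coroot w : H) := by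
  classical
  have h1 : ∀ w : Weight ℂ H L, ∃ p : L × L × L, w.IsNonZero →
      IsSl2Triple p.1 p.2.1 p.2.2 ∧ p.2.1 ∈ rootSpace H w ∧ p.2.2 ∈ rootSpace H (-w) := by
    intro w
    by_cases hw : w.IsNonZero
    · obtain ⟨h, e, f, ht, he, hf⟩ := exists_isSl2Triple_of_weight_isNonZero hw
      exact ⟨(h, e, f), fun _ => ⟨ht, he, hf⟩⟩
    · exact ⟨(0, 0, 0), fun h => absurd h hw⟩
  choose p hp using h1
  have hfin : Finite (Weight ℂ H L) := inferInstance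
  obtain ⟨N, ⟨g⟩⟩ := Finite.exists_equiv_fin (Weight ℂ H L)
  have hne : ∀ w : Weight ℂ H L, w.IsNonZero → w ≠ -w := by
    intro w hw h
    apply hw
    have h2 : (w : H → ℂ) = -w := by
      conv_lhs => rw [h]
      rfl
    funext x
    have h3 := congrFun h2 x
    rw [Pi.neg_apply] at h3
    rw [Pi.zero_apply]
    linear_combination h3 / 2
  refine ⟨fun w => if g w < g (-w) then (p w).2.1 else (p (-w)).2.2, fun w hw => ?_⟩
  have hn : g w ≠ g (-w) := fun h => hne w hw (g.injective h)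
  obtain ⟨ht, he, hf⟩ := hp w hw
  obtain ⟨ht', he', hf'⟩ := hp (-w) (by simpa using hw)
  have hf'' : (p (-w)).2.2 ∈ rootSpace H w := by
    have h2 : -((-w : Weight ℂ H L) : H → ℂ) = w := by
      rw [Weight.coe_neg, neg_neg]
    rwa [h2] at hf'
  have hcoe : ((-w : Weight ℂ H L) : H → ℂ) = -w := rfl
  rcases lt_or_gt_of_ne hn with h | h
  · have h' : ¬ g (-w) < g (- -w) := by
      rw [neg_neg]
      exact not_lt.2 h.le
    simp only [if_pos h, if_neg h']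
    refine ⟨he, ht.e_ne_zero, ?_⟩
    rw [neg_neg, ht.lie_e_f]
    exact ht.h_eq_coroot hw he hf
  · have h' : g (-w) < g (- -w) := by
      rw [neg_neg]
      exact h
    simp only [if_neg (not_lt.2 h.le), if_pos h']
    refine ⟨hf'', ht'.f_ne_zero, ?_⟩
    rw [← lie_skew, ht'.lie_e_f, ht'.h_eq_coroot (by simpa using hw) he' hf', coroot_neg]
    simp

theorem Abs_pair (i j : H.root) : ((rootSystem H).pairingIn ℤ j i : ℂ) =
    (j : Weight ℂ H L) (coroot (i : Weight ℂ H L)) := by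
  have := (rootSystem H).algebraMap_pairingIn ℤ j i
  simpa using this

theorem Abs_root {w : Weight ℂ H L} (hw : w.IsNonZero) : w ∈ H.root := by simpa using hw

variable (H) in
/-- The roots. -/
def Abs_Phi : Set (Module.Dual ℂ H) :=
  {α | ∃ w : Weight ℂ H L, w.IsNonZero ∧ Weight.toLinear ℂ H L w = α}

/-- The coroot functional. -/
noncomputable def Abs_pr (r : ℂ →ₗ[ℚ] ℚ) (α : Module.Dual ℂ H) : Module.Dual ℂ H →ₗ[ℚ] ℚ where
  toFun χ := r (χ (Abs_ext (fun w => (coroot w : H)) 0 α))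
  map_add' χ ψ := by rw [LinearMap.add_apply, map_add]
  map_smul' q χ := by rw [LinearMap.smul_apply, map_smul]; rfl

theorem Abs_pr_eq {r : ℂ →ₗ[ℚ] ℚ} (hr : ∀ q : ℚ, r (q : ℂ) = q) {w w' : Weight ℂ H L}
    (hw : w.IsNonZero) (hw' : w'.IsNonZero) :
    Abs_pr r (Weight.toLinear ℂ H L w) (Weight.toLinear ℂ H L w') =
      ((rootSystem H).pairingIn ℤ ⟨w', Abs_root hw'⟩ ⟨w, Abs_root hw⟩ : ℤ) := by
  change r (w' (Abs_ext (fun w => (coroot w : H)) 0 (Weight.toLinear ℂ H L w))) = _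
  rw [Abs_ext_eq _ _ hw]
  have h1 := Abs_pair ⟨w, Abs_root hw⟩ ⟨w', Abs_root hw'⟩
  rw [← h1]
  have h2 := hr ((rootSystem H).pairingIn ℤ ⟨w', Abs_root hw'⟩ ⟨w, Abs_root hw⟩ : ℤ)
  rw [Rat.cast_intCast] at h2
  exact h2

theorem Abs_rat_smul (q : ℚ) (α : Module.Dual ℂ H) : q • α = (q : ℂ) • α := by
  ext x
  rw [LinearMap.smul_apply, LinearMap.smul_apply, Rat.smul_def, smul_eq_mul]

theorem Abs_lin_ne {w : Weight ℂ H L} (hw : w.IsNonZero) : Weight.toLinear ℂ H L w ≠ 0 :=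
  Weight.coe_toLinear_ne_zero_iff.2 hw

theorem Abs_rootmap (w : Weight ℂ H L) (hw : w.IsNonZero) :
    (rootSystem H).root ⟨w, Abs_root hw⟩ = Weight.toLinear ℂ H L w := rfl

variable (H) in
/-- The root system. -/
noncomputable def Abs_R (r : ℂ →ₗ[ℚ] ℚ) (hr : ∀ q : ℚ, r (q : ℂ) = q) :
    Root (Module.Dual ℂ H) where
  Φ := Abs_Phi H
  fin := by
    refine (Set.finite_range (fun w : Weight ℂ H L => Weight.toLinear ℂ H L w)).subset ?_
    rintro _ ⟨w, -, rfl⟩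
    exact ⟨w, rfl⟩
  pr := Abs_pr r
  zero := by
    rintro ⟨w, hw, h⟩
    exact Abs_lin_ne hw h
  neg := by
    rintro _ ⟨w, hw, rfl⟩
    exact ⟨-w, by simpa using hw, rfl⟩
  pneg := by
    rintro _ ⟨w, hw, rfl⟩ χ
    change r (χ (Abs_ext (fun w => (coroot w : H)) 0 (Weight.toLinear ℂ H L (-w)))) =
      -r (χ (Abs_ext (fun w => (coroot w : H)) 0 (Weight.toLinear ℂ H L w)))
    rw [Abs_ext_eq _ _ hw, Abs_ext_eq _ _ (by simpa using hw), coroot_neg, map_neg, map_neg]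
  two := by
    rintro _ ⟨w, hw, rfl⟩
    change r (w (Abs_ext (fun w => (coroot w : H)) 0 (Weight.toLinear ℂ H L w))) = 2
    rw [Abs_ext_eq _ _ hw, root_apply_coroot hw]
    exact_mod_cast hr 2
  int := by
    rintro _ ⟨w, hw, rfl⟩ _ ⟨w', hw', rfl⟩
    exact ⟨_, Abs_pr_eq hr hw hw'⟩
  refl := by
    rintro _ ⟨w, hw, rfl⟩ _ ⟨w', hw', rfl⟩
    refine ⟨reflectRoot w w', reflectRoot_isNonZero w w' hw', ?_⟩
    rw [Abs_pr_eq hr hw hw', Abs_rat_smul, Rat.cast_intCast, Abs_pair]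
    ext x
    simp [reflectRoot]
  red := by
    rintro _ ⟨w, hw, rfl⟩ c ⟨w', hw', h⟩
    rw [Abs_rat_smul] at h
    have h0 := Abs_lin_ne hw
    rcases eq_neg_or_eq_of_eq_smul w w' hw' (c : ℂ) (by
      funext x
      exact LinearMap.congr_fun h x) with h1 | h1
    · right
      rw [h1] at h
      have h2 : ((c : ℂ) + 1) • Weight.toLinear ℂ H L w = 0 := by
        rw [add_smul, one_smul, ← h]
        change -Weight.toLinear ℂ H L w + Weight.toLinear ℂ H L w = 0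
        exact neg_add_cancel _
      have h3 := (smul_eq_zero.1 h2).resolve_right h0
      have h4 : ((c + 1 : ℚ) : ℂ) = 0 := by push_cast; exact h3
      have h5 : c + 1 = 0 := by exact_mod_cast h4
      linarith
    · left
      rw [h1] at h
      have h2 : ((c : ℂ) - 1) • Weight.toLinear ℂ H L w = 0 := by
        rw [sub_smul, one_smul, ← h]
        exact sub_self _
      have h3 := (smul_eq_zero.1 h2).resolve_right h0
      have h4 : ((c - 1 : ℚ) : ℂ) = 0 := by push_cast; exact h3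
      have h5 : c - 1 = 0 := by exact_mod_cast h4
      linarith
  cox := by
    rintro _ ⟨w, hw, rfl⟩ _ ⟨w', hw', rfl⟩ h1 h2
    rw [Abs_pr_eq hr hw hw', Abs_pr_eq hr hw' hw]
    have h3 := (rootSystem H).pairingIn_pairingIn_mem_set_of_isCrystal_of_isRed'
      (i := ⟨w', Abs_root hw'⟩) (j := ⟨w, Abs_root hw⟩) h1 h2
    generalize (rootSystem H).pairingIn ℤ ⟨w', Abs_root hw'⟩ ⟨w, Abs_root hw⟩ = x at h3
    generalize (rootSystem H).pairingIn ℤ ⟨w, Abs_root hw⟩ ⟨w', Abs_root hw'⟩ = y at h3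
    simp only [Set.mem_insert_iff, Set.mem_singleton_iff, Prod.mk.injEq] at h3
    rcases h3 with ⟨rfl, rfl⟩ | ⟨rfl, rfl⟩ | ⟨rfl, rfl⟩ | ⟨rfl, rfl⟩ | ⟨rfl, rfl⟩ | ⟨rfl, rfl⟩ |
      ⟨rfl, rfl⟩ | ⟨rfl, rfl⟩ | ⟨rfl, rfl⟩ | ⟨rfl, rfl⟩ | ⟨rfl, rfl⟩ <;> norm_num
  add := by
    rintro _ ⟨w, hw, rfl⟩ _ ⟨w', hw', rfl⟩ h1 h2
    rw [Abs_pr_eq hr hw hw'] at h2
    have h3 := (rootSystem H).root_add_root_mem_of_pairingIn_neg
      (i := ⟨w', Abs_root hw'⟩) (j := ⟨w, Abs_root hw⟩) (by exact_mod_cast h2) h1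
    obtain ⟨⟨v, hv⟩, h4⟩ := h3
    refine ⟨v, by simpa using hv, ?_⟩
    rw [add_comm]
    exact h4

end Abs

theorem exists_absRoot (L : Type) [LieRing L] [LieAlgebra ℂ L] [FiniteDimensional ℂ L]
    [LieAlgebra.IsKilling ℂ L] :
    ∃ (T : Type) (_ : AddCommGroup T) (_ : Module ℂ T), Nonempty (AbsRoot L T) := by
  open LieAlgebra LieModule LieAlgebra.IsKilling in
  classical
  obtain ⟨y, hy⟩ := exists_isCartanSubalgebra_engel ℂ L
  set H := LieSubalgebra.engel ℂ y with hH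
  obtain ⟨r, hr⟩ := Abs_retract
  obtain ⟨ee, hee⟩ := Abs_vec (L := L) (H := H)
  have hE : ∀ w : Weight ℂ H L, w.IsNonZero → Abs_ext ee 0 (Weight.toLinear ℂ H L w) = ee w :=
    fun w hw => Abs_ext_eq ee 0 hw
  have hC : ∀ w : Weight ℂ H L, w.IsNonZero →
      Abs_ext (fun w => (coroot w : H)) 0 (Weight.toLinear ℂ H L w) = coroot w :=
    fun w hw => Abs_ext_eq (fun w => (coroot w : H)) 0 hw
  have hNZ : ∀ w : Weight ℂ H L, w.IsNonZero → (-w).IsNonZero := fun w hw => by simpa using hw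
  have hlie : ∀ w w' : Weight ℂ H L, w.IsNonZero → w'.IsNonZero →
      ⁅ee w, ee w'⁆ ∈ rootSpace H (w + w' : H → ℂ) := fun w w' hw hw' =>
    lie_mem_genWeightSpace_of_mem_genWeightSpace (hee w hw).1 (hee w' hw').1
  refine ⟨H, inferInstance, inferInstance, ⟨
    { R := Abs_R H r hr
      ι := H.toSubmodule.subtype
      h := Abs_ext (fun w => (coroot w : H)) 0
      e := Abs_ext ee 0
      inj := Subtype.val_injective
      ene := ?_
      span := ?_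
      comm := ?_
      wt := ?_
      br := ?_
      hneg := ?_
      prh := ?_
      rat := ?_
      add0 := ?_
      add1 := ?_ }⟩⟩
  · rintro _ ⟨w, hw, rfl⟩
    rw [hE w hw]
    exact (hee w hw).2.1
  · have h1 := cartan_sup_iSup_rootSpace_eq_top (K := ℂ) (L := L) H
    intro x _
    have hx : x ∈ (H.toLieSubmodule ⊔ ⨆ α : Weight ℂ H L, ⨆ (_ : α.IsNonZero),
        rootSpace H α) := by
      rw [h1]
      exact LieSubmodule.mem_top x
    have h2 : ((H.toLieSubmodule ⊔ ⨆ α : Weight ℂ H L, ⨆ (_ : α.IsNonZero),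
        rootSpace H α : LieSubmodule ℂ H L) : Submodule ℂ L) ≤
        LinearMap.range H.toSubmodule.subtype ⊔
          Submodule.span ℂ (Abs_ext ee 0 '' (Abs_R H r hr).Φ) := by
      rw [LieSubmodule.sup_toSubmodule]
      refine sup_le ?_ ?_
      · refine le_trans ?_ le_sup_left
        intro z hz
        exact ⟨⟨z, by simpa using hz⟩, rfl⟩
      · refine le_trans ?_ le_sup_right
        rw [LieSubmodule.iSup_toSubmodule]
        refine iSup_le fun w => ?_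
        rw [LieSubmodule.iSup_toSubmodule]
        refine iSup_le fun hw => ?_
        intro x hx
        obtain ⟨c, hc⟩ := (finrank_eq_one_iff_of_nonzero' (⟨ee w, (hee w hw).1⟩ : rootSpace H w)
          (by simpa using (hee w hw).2.1)).mp (finrank_rootSpace_eq_one _ hw) ⟨x, hx⟩
        have hc' : c • ee w = x := congrArg Subtype.val hc
        rw [← hc', ← hE w hw]
        exact Submodule.smul_mem _ _ (Submodule.subset_span ⟨_, ⟨w, hw, rfl⟩, rfl⟩)
    exact h2 hx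
  · intro s t
    have h5 : ⁅s, t⁆ = (0 : H) := trivial_lie_zero _ _ _ _
    exact congrArg Subtype.val h5
  · rintro _ ⟨w, hw, rfl⟩ t
    rw [hE w hw]
    exact lie_eq_smul_of_mem_rootSpace (hee w hw).1 t
  · rintro _ ⟨w, hw, rfl⟩
    have h1 := hE (-w) (hNZ w hw)
    rw [Weight.toLinear_neg] at h1
    rw [hE w hw, hC w hw, h1]
    exact (hee w hw).2.2
  · rintro _ ⟨w, hw, rfl⟩
    have h1 := hC (-w) (hNZ w hw)
    rw [Weight.toLinear_neg] at h1
    rw [hC w hw, h1, coroot_neg]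
  · rintro _ ⟨w, hw, rfl⟩ χ ⟨q, hq⟩
    change _ = ((r (χ (Abs_ext (fun w => (coroot w : H)) 0 (Weight.toLinear ℂ H L w))) : ℚ) : ℂ)
    rw [hq, hr]
  · rintro _ ⟨w, hw, rfl⟩ _ ⟨w', hw', rfl⟩
    refine ⟨((rootSystem H).pairingIn ℤ ⟨w', Abs_root hw'⟩ ⟨w, Abs_root hw⟩ : ℤ), ?_⟩
    rw [hC w hw, Rat.cast_intCast, Abs_pair]
    rfl
  · rintro _ ⟨w, hw, rfl⟩ _ ⟨w', hw', rfl⟩ h1 h2
    rw [hE w hw, hE w' hw']
    by_contra h3
    apply h2
    have h4 := hlie w w' hw hw'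
    have h5 : rootSpace H (w + w' : H → ℂ) ≠ ⊥ := by
      intro h6
      rw [h6] at h4
      exact h3 (by simpa using h4)
    let v : Weight ℂ H L := ⟨(w + w' : H → ℂ), h5⟩
    have h6 : Weight.toLinear ℂ H L v = Weight.toLinear ℂ H L w + Weight.toLinear ℂ H L w' := by
      ext x
      rfl
    refine ⟨v, ?_, h6⟩
    rw [← Weight.coe_toLinear_ne_zero_iff, h6]
    exact h1
  · rintro _ ⟨w, hw, rfl⟩ _ ⟨w', hw', rfl⟩ ⟨v, hv, h1⟩
    rw [← h1, hE w hw, hE w' hw', hE v hv]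
    have h4 := hlie w w' hw hw'
    have h5 : (v : H → ℂ) = (w + w' : H → ℂ) := by
      funext x
      exact LinearMap.congr_fun h1 x
    rw [← h5] at h4
    obtain ⟨c, hc⟩ := (finrank_eq_one_iff_of_nonzero' (⟨ee v, (hee v hv).1⟩ : rootSpace H v)
      (by simpa using (hee v hv).2.1)).mp (finrank_rootSpace_eq_one _ hv) ⟨_, h4⟩
    exact ⟨c, (congrArg Subtype.val hc).symm⟩

end Pool.Agent.Y102.SP
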